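import Pool.Agent.V5helper27.BM.Stm

set_option autoImplicit false

/-! FIN: the uniform bound for all radii and all `|t| < 4`. -/

open Complex Filter Topology Set Metric MeasureTheory

namespace Pool.Agent.V5helper62.BM

open Pool.Agent.V5helper27.BM

lemma circ_exp (x θ : ℝ) : circ (Real.exp x) θ = cexp (x + θ * I) := by
  rw [circ, Complex.ofReal_exp, ← Complex.exp_add]

lemma pmean_eq (t : ℂ) (x : ℝ) (h : ℂ → ℂ) : pmean t (Real.exp x) h = pm t x h := by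
  simp only [pmean, pm, circ_exp, Complex.norm_exp]

lemma norm_pt (x θ : ℝ) : ‖cexp ((x : ℂ) + θ * I)‖ = Real.exp x := by
  rw [Complex.norm_exp]; simp

lemma cont_h {ψ h : ℂ → ℂ} (hS : IsSig ψ h) {x : ℝ} (hx : 0 < x) :
    Continuous fun θ : ℝ => h (cexp (x + θ * I)) := by
  have h1 : ContinuousOn h {z : ℂ | 1 < ‖z‖} := hS.2.2.2.1.continuousOn
  refine h1.comp_continuous (by fun_prop) (fun θ => ?_)
  show 1 < ‖cexp ((x : ℂ) + θ * I)‖
  rw [norm_pt]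
  exact Real.one_lt_exp_iff.2 hx

lemma pm_le {ψ h : ℂ → ℂ} (hS : IsSig ψ h) {x x' : ℝ} (hx : 0 < x) (hx' : 0 < x') (t t' : ℂ) (B : ℝ)
    (hb : ∀ θ : ℝ, (t * h (cexp (x + θ * I))).re ≤ (t' * h (cexp (x' + θ * I))).re + B) :
    pm t x h ≤ Real.exp B * pm t' x' h := by
  have hc0 := cont_h hS hx
  have hc0' := cont_h hS hx'
  have hc : Continuous fun θ : ℝ => Real.exp (t * h (cexp (x + θ * I))).re :=
    Real.continuous_exp.comp (Complex.continuous_re.comp (continuous_const.mul hc0))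
  have hc' : Continuous fun θ : ℝ => Real.exp B * Real.exp (t' * h (cexp (x' + θ * I))).re :=
    continuous_const.mul (Real.continuous_exp.comp (Complex.continuous_re.comp (continuous_const.mul hc0')))
  have hpi : (0:ℝ) ≤ 1 / (2 * Real.pi) := by positivity
  have h1 : (∫ θ in (0:ℝ)..(2 * Real.pi), Real.exp (t * h (cexp (x + θ * I))).re) ≤
      ∫ θ in (0:ℝ)..(2 * Real.pi), Real.exp B * Real.exp (t' * h (cexp (x' + θ * I))).re := by
    apply intervalIntegral.integral_mono_on (by positivity) (hc.intervalIntegrable _ _)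
      (hc'.intervalIntegrable _ _)
    intro θ _
    rw [← Real.exp_add]
    apply Real.exp_le_exp.2
    linarith [hb θ]
  rw [intervalIntegral.integral_const_mul] at h1
  unfold pm
  calc _ ≤ (1 / (2 * Real.pi)) * (Real.exp B *
        ∫ θ in (0:ℝ)..(2 * Real.pi), Real.exp (t' * h (cexp (x' + θ * I))).re) :=
        mul_le_mul_of_nonneg_left h1 hpi
    _ = _ := by ring

/-- from the radius `exp (1/m)` to the radius `exp x` -/
lemma step (hl : S_lip) {ψ h : ℂ → ℂ} (hS : IsSig ψ h) {x : ℝ} (hx : 0 < x) (hx1 : x ≤ 1) {m : ℕ}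
    (hm : 0 < m) (h1 : 1 / (m : ℝ) ≤ x) (h2 : (m : ℝ) * x - 1 ≤ x) (t : ℂ) :
    pm t x h ≤ Real.exp (3 * ‖t‖) * pm t (1 / m) h := by
  have hm0 : (0:ℝ) < m := by exact_mod_cast hm
  have hm1 : (0:ℝ) < 1 / (m:ℝ) := by positivity
  refine pm_le hS hx hm1 t t (3 * ‖t‖) (fun θ => ?_)
  have h3 := hl ψ h hS (1 / m) hm1 (x + θ * I) (((1 / (m:ℝ) : ℝ) : ℂ) + θ * I) (by simpa using h1) (by simp)
  have h4 : ((x:ℂ) + θ * I) - (((1 / (m:ℝ) : ℝ) : ℂ) + θ * I) = ((x - 1 / m : ℝ) : ℂ) := by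
    push_cast; ring
  rw [h4, Complex.norm_real, Real.norm_eq_abs, abs_of_nonneg (by linarith)] at h3
  have h5 : 3 / (1 / (m:ℝ)) * (x - 1 / m) = 3 * (m * x - 1) := by field_simp
  rw [h5] at h3
  have h6 : (t * h (cexp (x + θ * I))).re - (t * h (cexp (((1 / (m:ℝ) : ℝ) : ℂ) + θ * I))).re ≤
      ‖t‖ * ‖h (cexp (x + θ * I)) - h (cexp (((1 / (m:ℝ) : ℝ) : ℂ) + θ * I))‖ := by
    rw [← Complex.sub_re, ← mul_sub, ← norm_mul]
    exact Complex.re_le_norm _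
  have h7 : ‖t‖ * ‖h (cexp (x + θ * I)) - h (cexp (((1 / (m:ℝ) : ℝ) : ℂ) + θ * I))‖ ≤ ‖t‖ * 3 :=
    mul_le_mul_of_nonneg_left (by linarith) (norm_nonneg t)
  linarith

/-- from `2` to larger exponents -/
lemma big (hg : S_gol1) {ψ h : ℂ → ℂ} (hS : IsSig ψ h) {x : ℝ} (hx : 0 < x) (t : ℂ) (ht : 2 ≤ ‖t‖) :
    pm t x h ≤ Real.exp ((‖t‖ - 2) * LR (Real.exp x)) * pm ((2 / ‖t‖ : ℝ) * t) x h := by
  refine pm_le hS hx hx _ _ _ (fun θ => ?_)
  have hn : 0 < ‖t‖ := by linarith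
  set w : ℂ := cexp (x + θ * I) with hw
  have hwn : ‖w‖ = Real.exp x := norm_pt x θ
  have h1 := hg ψ h hS w (by
    show 1 < ‖w‖
    rw [hwn]; exact Real.one_lt_exp_iff.2 hx)
  rw [hwn] at h1
  have h2 : (t * h w).re - (((2 / ‖t‖ : ℝ) : ℂ) * t * h w).re ≤ ‖(1 - ((2 / ‖t‖ : ℝ) : ℂ)) * t‖ * ‖h w‖ := by
    rw [← Complex.sub_re, ← norm_mul]
    have : t * h w - ((2 / ‖t‖ : ℝ) : ℂ) * t * h w = (1 - ((2 / ‖t‖ : ℝ) : ℂ)) * t * h w := by ring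
    rw [this]
    exact Complex.re_le_norm _
  have h3 : ‖(1 - ((2 / ‖t‖ : ℝ) : ℂ)) * t‖ = ‖t‖ - 2 := by
    have e : (1 - ((2 / ‖t‖ : ℝ) : ℂ)) = ((1 - 2 / ‖t‖ : ℝ) : ℂ) := by push_cast; ring
    have h4 : 0 ≤ 1 - 2 / ‖t‖ := by
      rw [sub_nonneg, div_le_one hn]; exact ht
    rw [norm_mul, e, Complex.norm_real, Real.norm_eq_abs, abs_of_nonneg h4]
    field_simp
  rw [h3] at h2
  have h5 : (‖t‖ - 2) * ‖h w‖ ≤ (‖t‖ - 2) * LR (Real.exp x) :=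
    mul_le_mul_of_nonneg_left h1 (by linarith)
  linarith

/-- `q = R² / (R² - 1) ≥ 1 / (2 x)`, `R = exp x` -/
lemma q_ge {x : ℝ} (hx : 0 < x) : 1 / (2 * x) ≤ (Real.exp x) ^ 2 / ((Real.exp x) ^ 2 - 1) := by
  have h1 : 1 < (Real.exp x) ^ 2 := by
    have : 1 < Real.exp x := Real.one_lt_exp_iff.2 hx
    nlinarith
  have h2 : 1 - 2 * x ≤ Real.exp (-(2 * x)) := by
    have := Real.add_one_le_exp (-(2 * x)); linarith
  have h3 : Real.exp (-(2 * x)) * (Real.exp x) ^ 2 = 1 := by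
    rw [← Real.exp_nat_mul, ← Real.exp_add]
    simp
  rw [div_le_div_iff₀ (by positivity) (by linarith)]
  nlinarith [Real.exp_pos x]

lemma q_gt {x : ℝ} (hx : 0 < x) : 1 < (Real.exp x) ^ 2 / ((Real.exp x) ^ 2 - 1) := by
  have h1 : 1 < (Real.exp x) ^ 2 := by
    have : 1 < Real.exp x := Real.one_lt_exp_iff.2 hx
    nlinarith
  rw [lt_div_iff₀ (by linarith)]
  linarith

lemma sqrt_bd {a b : ℝ} (hb : 0 ≤ b) (h : a ≤ 4 + b) : Real.sqrt a ≤ 2 + Real.sqrt b := by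
  rw [Real.sqrt_le_left (by positivity)]
  nlinarith [Real.sqrt_nonneg b, Real.sq_sqrt hb]

/-- `|t| ≤ 2` -/
lemma small (hl : S_lip) {C : ℝ} (hC : 0 ≤ C) {m₀ : ℕ} (hm₀ : 2 ≤ m₀)
    (hit : ∀ ψ h : ℂ → ℂ, IsSig ψ h → ∀ t : ℂ, ‖t‖ ≤ 2 →
      ∀ m : ℕ, m₀ ≤ m → pm t (1 / m) h ≤ Real.exp (C + C * ‖t‖ * Real.sqrt (Real.log m)) * (m : ℝ) ^ (‖t‖ ^ 2 / 4))
    {ψ h : ℂ → ℂ} (hS : IsSig ψ h) {x : ℝ} (hx : 0 < x) (hxm : x < 1 / m₀) (t : ℂ) (ht : ‖t‖ ≤ 2) :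
    pm t x h ≤ Real.exp (6 + 5 * C) * 4 * Real.exp (C * ‖t‖ * Real.sqrt (LR (Real.exp x))) *
      ((Real.exp x) ^ 2 / ((Real.exp x) ^ 2 - 1)) ^ (‖t‖ ^ 2 / 4) := by
  have hm₀0 : (0:ℝ) < m₀ := by
    have : (2:ℝ) ≤ m₀ := by exact_mod_cast hm₀
    linarith
  have hx1 : x ≤ 1 := by
    have : 1 / (m₀:ℝ) ≤ 1 := by
      rw [div_le_one hm₀0]
      have : (2:ℝ) ≤ m₀ := by exact_mod_cast hm₀
      linarith
    linarith
  set m : ℕ := ⌈1 / x⌉₊ with hmdef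
  have hm1 : 1 / x ≤ m := Nat.le_ceil _
  have hm2 : (m:ℝ) < 1 / x + 1 := Nat.ceil_lt_add_one (by positivity)
  have hmm : (m₀:ℝ) ≤ m := by
    have : (m₀:ℝ) ≤ 1 / x := by
      rw [le_div_iff₀ hx]
      have := (lt_div_iff₀ hm₀0).1 hxm
      linarith
    linarith
  have hmm' : m₀ ≤ m := by exact_mod_cast hmm
  have hm0 : (0:ℝ) < m := by linarith
  have hmpos : 0 < m := by exact_mod_cast hm0
  have h1 : 1 / (m:ℝ) ≤ x := by
    rw [div_le_iff₀ hm0]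
    rw [div_le_iff₀ hx] at hm1
    linarith
  have h2 : (m:ℝ) * x - 1 ≤ x := by
    have : (m:ℝ) * x < (1 / x + 1) * x := mul_lt_mul_of_pos_right hm2 hx
    have e : (1 / x + 1) * x = 1 + x := by field_simp
    linarith
  have h3 := step hl hS hx hx1 hmpos h1 h2 t
  have h4 := hit ψ h hS t ht m hmm'
  set q : ℝ := (Real.exp x) ^ 2 / ((Real.exp x) ^ 2 - 1) with hq
  have hq1 : 1 < q := q_gt hx
  have hq0 : 0 < q := by linarith
  have hLR : LR (Real.exp x) = Real.log q := rfl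
  rw [hLR]
  have hlogq : 0 ≤ Real.log q := Real.log_nonneg hq1.le
  have hmq : (m:ℝ) ≤ 4 * q := by
    have h5 : 1 / (2 * x) ≤ q := q_ge hx
    have h6 : 1 / x = 2 * (1 / (2 * x)) := by field_simp
    have h7 : 1 ≤ 1 / x := by rw [le_div_iff₀ hx]; linarith
    linarith
  have hlog4 : Real.log 4 ≤ 4 := by
    have := Real.log_le_sub_one_of_pos (show (0:ℝ) < 4 by norm_num)
    linarith
  have hlogm : Real.log m ≤ 4 + Real.log q := by
    have h5 : Real.log m ≤ Real.log (4 * q) := Real.log_le_log hm0 hmq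
    rw [Real.log_mul (by norm_num) hq0.ne'] at h5
    linarith
  have hsq : Real.sqrt (Real.log m) ≤ 2 + Real.sqrt (Real.log q) := sqrt_bd hlogq hlogm
  have hpow : (m:ℝ) ^ (‖t‖ ^ 2 / 4) ≤ 4 * q ^ (‖t‖ ^ 2 / 4) := by
    have he0 : 0 ≤ ‖t‖ ^ 2 / 4 := by positivity
    have he1 : ‖t‖ ^ 2 / 4 ≤ 1 := by nlinarith [norm_nonneg t]
    calc (m:ℝ) ^ (‖t‖ ^ 2 / 4) ≤ (4 * q) ^ (‖t‖ ^ 2 / 4) := Real.rpow_le_rpow hm0.le hmq he0
      _ = 4 ^ (‖t‖ ^ 2 / 4) * q ^ (‖t‖ ^ 2 / 4) := Real.mul_rpow (by norm_num) hq0.le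
      _ ≤ 4 * q ^ (‖t‖ ^ 2 / 4) := by
        apply mul_le_mul_of_nonneg_right _ (Real.rpow_nonneg hq0.le _)
        calc (4:ℝ) ^ (‖t‖ ^ 2 / 4) ≤ 4 ^ (1:ℝ) := Real.rpow_le_rpow_of_exponent_le (by norm_num) he1
          _ = 4 := by norm_num
  have hexp : Real.exp (C + C * ‖t‖ * Real.sqrt (Real.log m)) ≤
      Real.exp (5 * C) * Real.exp (C * ‖t‖ * Real.sqrt (Real.log q)) := by
    rw [← Real.exp_add]
    apply Real.exp_le_exp.2
    have h5 : C * ‖t‖ * Real.sqrt (Real.log m) ≤ C * ‖t‖ * (2 + Real.sqrt (Real.log q)) :=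
      mul_le_mul_of_nonneg_left hsq (by positivity)
    have h6 : C * ‖t‖ * 2 ≤ C * 2 * 2 := by
      have := mul_le_mul_of_nonneg_left ht hC
      linarith
    nlinarith
  have h6 : Real.exp (3 * ‖t‖) ≤ Real.exp 6 := Real.exp_le_exp.2 (by linarith)
  have hpm0 : 0 ≤ Real.exp (C + C * ‖t‖ * Real.sqrt (Real.log m)) * (m : ℝ) ^ (‖t‖ ^ 2 / 4) := by positivity
  calc pm t x h ≤ Real.exp (3 * ‖t‖) * pm t (1 / m) h := h3
    _ ≤ Real.exp (3 * ‖t‖) * (Real.exp (C + C * ‖t‖ * Real.sqrt (Real.log m)) * (m : ℝ) ^ (‖t‖ ^ 2 / 4)) :=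
        mul_le_mul_of_nonneg_left h4 (Real.exp_pos _).le
    _ ≤ Real.exp 6 * ((Real.exp (5 * C) * Real.exp (C * ‖t‖ * Real.sqrt (Real.log q))) *
        (4 * q ^ (‖t‖ ^ 2 / 4))) := by
        apply mul_le_mul h6 _ hpm0 (Real.exp_pos _).le
        exact mul_le_mul hexp hpow (by positivity) (by positivity)
    _ = _ := by
        rw [Real.exp_add 6 (5 * C)]; ring

theorem finl (hi : S_iter) (hl : S_lip) (hg : S_gol1) : S_fin := by
  intro hB c hc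
  obtain ⟨C, m₀, hC, hm₀, hit⟩ := hi hB
  have hm₀0 : (0:ℝ) < m₀ := by
    have : (2:ℝ) ≤ m₀ := by exact_mod_cast hm₀
    linarith
  refine ⟨Real.exp (6 + 5 * C) * 4 * Real.exp (C ^ 2 / (4 * (c - 1 / 4))), Real.exp (1 / m₀),
    Real.one_lt_exp_iff.2 (by positivity), ?_⟩
  intro R hR1 hR2 ψ h hS t ht
  set x : ℝ := Real.log R with hx
  have hRpos : 0 < R := by linarith
  have hRx : R = Real.exp x := (Real.exp_log hRpos).symm
  have hx0 : 0 < x := Real.log_pos hR1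
  have hxm : x < 1 / m₀ := by
    rw [hx, Real.log_lt_iff_lt_exp hRpos]; exact hR2
  rw [hRx, pmean_eq]
  set q : ℝ := (Real.exp x) ^ 2 / ((Real.exp x) ^ 2 - 1) with hq
  have hq1 : 1 < q := q_gt hx0
  have hq0 : 0 < q := by linarith
  have hLR : LR (Real.exp x) = Real.log q := rfl
  have hlogq : 0 ≤ Real.log q := Real.log_nonneg hq1.le
  -- the bound for all `t`
  have key : pm t x h ≤ Real.exp (6 + 5 * C) * 4 * Real.exp (C * ‖t‖ * Real.sqrt (Real.log q)) *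
      q ^ (‖t‖ ^ 2 / 4) := by
    rcases le_or_gt ‖t‖ 2 with h2 | h2
    · exact small hl hC hm₀ hit hS hx0 hxm t h2
    · have hb := big hg hS hx0 t h2.le
      have ht0 : ‖((2 / ‖t‖ : ℝ) : ℂ) * t‖ = 2 := by
        rw [norm_mul, Complex.norm_real, Real.norm_eq_abs, abs_of_nonneg (by positivity)]
        field_simp
      have hs := small hl hC hm₀ hit hS hx0 hxm (((2 / ‖t‖ : ℝ) : ℂ) * t) ht0.le
      rw [ht0, hLR, ← hq] at hs
      rw [hLR] at hb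
      have e1 : (2:ℝ) ^ 2 / 4 = 1 := by norm_num
      rw [e1, Real.rpow_one] at hs
      have e2 : Real.exp ((‖t‖ - 2) * Real.log q) = q ^ (‖t‖ - 2) := by
        rw [Real.rpow_def_of_pos hq0, mul_comm]
      have h7 : Real.exp (C * 2 * Real.sqrt (Real.log q)) ≤ Real.exp (C * ‖t‖ * Real.sqrt (Real.log q)) := by
        apply Real.exp_le_exp.2
        apply mul_le_mul_of_nonneg_right _ (Real.sqrt_nonneg _)
        exact mul_le_mul_of_nonneg_left h2.le hC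
      have h8 : q ^ (‖t‖ - 2) * q ≤ q ^ (‖t‖ ^ 2 / 4) := by
        have e3 : q ^ (‖t‖ - 2) * q = q ^ (‖t‖ - 1) := by
          rw [← Real.rpow_add_one hq0.ne']; congr 1; ring
        rw [e3]
        apply Real.rpow_le_rpow_of_exponent_le hq1.le
        nlinarith [sq_nonneg (‖t‖ - 2)]
      calc pm t x h ≤ q ^ (‖t‖ - 2) * pm (((2 / ‖t‖ : ℝ) : ℂ) * t) x h := by rw [← e2]; exact hb
        _ ≤ q ^ (‖t‖ - 2) * (Real.exp (6 + 5 * C) * 4 * Real.exp (C * 2 * Real.sqrt (Real.log q)) * q) :=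
            mul_le_mul_of_nonneg_left hs (Real.rpow_nonneg hq0.le _)
        _ = (Real.exp (6 + 5 * C) * 4 * Real.exp (C * 2 * Real.sqrt (Real.log q))) * (q ^ (‖t‖ - 2) * q) := by
            ring
        _ ≤ (Real.exp (6 + 5 * C) * 4 * Real.exp (C * ‖t‖ * Real.sqrt (Real.log q))) * q ^ (‖t‖ ^ 2 / 4) := by
            apply mul_le_mul _ h8 (by positivity) (by positivity)
            exact mul_le_mul_of_nonneg_left h7 (by positivity)
  -- absorb the factor `exp (C |t| sqrt (log q))`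
  have hd : 0 < c - 1 / 4 := by linarith
  set s : ℝ := Real.sqrt (Real.log q) with hs
  have hs2 : s ^ 2 = Real.log q := Real.sq_sqrt hlogq
  have h9 : C * ‖t‖ * s ≤ C ^ 2 / (4 * (c - 1 / 4)) + (c - 1 / 4) * ‖t‖ ^ 2 * Real.log q := by
    rw [← hs2]
    have h10 : 0 ≤ (C - 2 * (c - 1 / 4) * (‖t‖ * s)) ^ 2 / (4 * (c - 1 / 4)) := by positivity
    have h11 : (C - 2 * (c - 1 / 4) * (‖t‖ * s)) ^ 2 / (4 * (c - 1 / 4)) =
        C ^ 2 / (4 * (c - 1 / 4)) - C * ‖t‖ * s + (c - 1 / 4) * ‖t‖ ^ 2 * s ^ 2 := by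
      generalize c - 1 / 4 = d at hd
      field_simp
      ring
    linarith
  have h12 : Real.exp (C * ‖t‖ * s) ≤ Real.exp (C ^ 2 / (4 * (c - 1 / 4))) * q ^ ((c - 1 / 4) * ‖t‖ ^ 2) := by
    rw [Real.rpow_def_of_pos hq0, ← Real.exp_add]
    apply Real.exp_le_exp.2
    linarith
  have e4 : q ^ ((c - 1 / 4) * ‖t‖ ^ 2) * q ^ (‖t‖ ^ 2 / 4) = q ^ (c * ‖t‖ ^ 2) := by
    rw [← Real.rpow_add hq0]; congr 1; ring
  calc pm t x h ≤ Real.exp (6 + 5 * C) * 4 * Real.exp (C * ‖t‖ * s) * q ^ (‖t‖ ^ 2 / 4) := key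
    _ ≤ Real.exp (6 + 5 * C) * 4 * (Real.exp (C ^ 2 / (4 * (c - 1 / 4))) * q ^ ((c - 1 / 4) * ‖t‖ ^ 2)) *
        q ^ (‖t‖ ^ 2 / 4) := by
        apply mul_le_mul_of_nonneg_right _ (Real.rpow_nonneg hq0.le _)
        exact mul_le_mul_of_nonneg_left h12 (by positivity)
    _ = Real.exp (6 + 5 * C) * 4 * Real.exp (C ^ 2 / (4 * (c - 1 / 4))) *
        (q ^ ((c - 1 / 4) * ‖t‖ ^ 2) * q ^ (‖t‖ ^ 2 / 4)) := by ring
    _ = _ := by rw [e4]

end Pool.Agent.V5helper62.BM
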